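import Mathlib
import Pool.Agent.H892.ZL.Stm

set_option autoImplicit false

/-!
# Jacobians of regular functions
-/

namespace Pool.Agent.H404.ZL

open MvPolynomial Matrix Pool.Agent.H892.ZL

/-- the chain rule -/
theorem der_aeval {E : Type} [Field E] [Algebra ℂ E] (δ : Derivation ℂ E E) (q : Fin 6 → E)
    (A : MvPolynomial (Fin 6) ℂ) :
    δ (aeval q A) = ∑ I, aeval q (pderiv I A) * δ (q I) := by
  induction A using MvPolynomial.induction_on with
  | C a =>
    simp only [aeval_C, Derivation.map_algebraMap, pderiv_C, map_zero, zero_mul,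
      Finset.sum_const_zero]
  | add p r hp hr =>
    simp only [map_add, hp, hr, add_mul, Finset.sum_add_distrib]
  | mul_X p j hp =>
    rw [map_mul, Derivation.leibniz, aeval_X, hp, smul_eq_mul, smul_eq_mul, Finset.mul_sum]
    have h1 : ∀ I : Fin 6, aeval q (pderiv I (p * X j)) * δ (q I) =
        q j * (aeval q (pderiv I p) * δ (q I)) +
          (if I = j then aeval q p * δ (q j) else 0) := by
      intro I
      rw [Derivation.leibniz, pderiv_X, smul_eq_mul, smul_eq_mul, map_add, map_mul, map_mul,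
        aeval_X]
      by_cases hI : I = j
      · subst hI
        rw [Pi.single_eq_same, map_one, if_pos rfl]
        ring
      · rw [Pi.single_eq_of_ne (fun h => hI h.symm), map_zero, if_neg hI]
        ring
    rw [Finset.sum_congr rfl fun I _ => h1 I, Finset.sum_add_distrib, Finset.sum_ite_eq',
      if_pos (Finset.mem_univ j)]
    ring

theorem det_mem {E : Type} [Field E] [Algebra ℂ E] (S : Subalgebra ℂ E) {n : Type}
    [Fintype n] [DecidableEq n] (M : Matrix n n E) (hM : ∀ i j, M i j ∈ S) : M.det ∈ S := by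
  rw [Matrix.det_apply']
  exact sum_mem fun σ _ => mul_mem (intCast_mem S _) (prod_mem fun i _ => hM _ _)

/-- the coefficients of the differential of a quotient -/
noncomputable def lc {E : Type} [Field E] [Algebra ℂ E] (q : Fin 6 → E)
    (A B : MvPolynomial (Fin 6) ℂ) (I : Fin 6) : E :=
  aeval q (pderiv I A * B - A * pderiv I B) / aeval q (B ^ 2)

theorem der_quot {E : Type} [Field E] [Algebra ℂ E] (δ : Derivation ℂ E E) (q : Fin 6 → E)
    (A B : MvPolynomial (Fin 6) ℂ) (u : E) (hB : aeval q B ≠ 0)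
    (hu : u * aeval q B = aeval q A) : δ u = ∑ I, lc q A B I * δ (q I) := by
  have h1 := congrArg δ hu
  rw [Derivation.leibniz, smul_eq_mul, smul_eq_mul] at h1
  have h2 : ∑ I, lc q A B I * δ (q I) =
      (δ (aeval q A) * aeval q B - aeval q A * δ (aeval q B)) / aeval q B ^ 2 := by
    rw [der_aeval, der_aeval, Finset.sum_mul, Finset.mul_sum, ← Finset.sum_sub_distrib,
      Finset.sum_div]
    refine Finset.sum_congr rfl fun I _ => ?_
    unfold lc
    rw [map_sub, map_mul, map_mul, map_pow]
    ring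
  rw [h2, eq_div_iff (pow_ne_zero 2 hB), ← h1, ← hu]
  ring

theorem t_CL (h1 : S_INL) : S_CL := by
  intro E _ _ δ K q c w M hM hW hcomp u hu
  obtain ⟨S, hS1, -, -, hS4⟩ := h1 E q c hcomp
  set S1 : Subalgebra ℂ E := S.map (AlgHom.fst ℂ E ℂ) with hS1d
  have hmem : ∀ r, InLoc q c r ↔ r ∈ S1 := by
    intro r
    rw [hS4, hS1d, Subalgebra.mem_map]
    constructor
    · rintro ⟨a, ha⟩
      exact ⟨(r, a), ha, rfl⟩
    · rintro ⟨⟨r', a⟩, ha, rfl⟩
      exact ⟨a, ha⟩
  choose A B hB1 hB2 hAB using hu
  set L : Matrix (Fin 4) (Fin 6) E :=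
    Fin.cons (Pi.single M 1) (fun j => lc q (A j) (B j)) with hL
  have hpoly : ∀ P : MvPolynomial (Fin 6) ℂ, aeval q P ∈ S1 := by
    intro P
    rw [← hmem]
    exact ⟨P, 1, by rw [map_one]; exact one_ne_zero, by rw [map_one]; exact one_ne_zero,
      by rw [map_one, mul_one]⟩
  have hLm : ∀ i I, L i I ∈ S1 := by
    intro i I
    refine Fin.cases ?_ (fun j => ?_) i
    · show (Pi.single M 1 : Fin 6 → E) I ∈ S1
      rw [Pi.single_apply]
      split_ifs
      · exact one_mem _
      · exact zero_mem _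
    · show lc q (A j) (B j) I ∈ S1
      rw [← hmem]
      refine ⟨pderiv I (A j) * B j - A j * pderiv I (B j), B j ^ 2, ?_, ?_, ?_⟩
      · rw [map_pow]
        exact pow_ne_zero 2 (hB1 j)
      · rw [map_pow]
        exact pow_ne_zero 2 (hB2 j)
      · unfold lc
        rw [div_mul_cancel₀]
        rw [map_pow]
        exact pow_ne_zero 2 (hB2 j)
  refine ⟨D6 L (YY K q), ?_, ?_⟩
  · rw [hmem]
    unfold D6
    refine det_mem S1 _ fun i j => ?_
    rw [Matrix.submatrix_apply, id_eq]
    rcases i with i | i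
    · exact hLm i _
    · show YY K q i _ ∈ S1
      unfold YY
      fin_cases i
      · exact hpoly _
      · exact hpoly _
  · have e0 : ∀ X : Fin 6 → E, ∑ I, L 0 I * X I = X M := by
      intro X
      have h3 : ∀ I, L 0 I * X I = if I = M then X M else 0 := by
        intro I
        show (Pi.single M 1 : Fin 6 → E) I * X I = _
        rw [Pi.single_apply]
        split_ifs with h
        · rw [one_mul, h]
        · rw [zero_mul]
      rw [Finset.sum_congr rfl fun I _ => h3 I, Finset.sum_ite_eq', if_pos (Finset.mem_univ M)]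
    have a00 : (L * (XX δ q)ᵀ) 0 0 = 1 := by
      rw [Matrix.mul_apply]
      exact (e0 _).trans hM
    have a0j : ∀ j : Fin 3, (L * (XX δ q)ᵀ) 0 j.succ = 0 := by
      intro j
      rw [Matrix.mul_apply]
      refine (e0 _).trans ?_
      show δ j (q M) = 0
      rw [hM, Derivation.map_one_eq_zero]
    have ajj : ∀ i j : Fin 3, (L * (XX δ q)ᵀ) j.succ i.succ = δ i (u j) := by
      intro i j
      rw [Matrix.mul_apply, der_quot (δ i) q (A j) (B j) (u j) (hB2 j) (hAB j)]
      rfl
    rw [← hW L, Matrix.det_succ_row_zero (L * (XX δ q)ᵀ), Fin.sum_univ_succ, a00]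
    have h4 : ∑ i : Fin 3, (-1 : E) ^ ((i.succ : Fin 4) : ℕ) * (L * (XX δ q)ᵀ) 0 i.succ *
        ((L * (XX δ q)ᵀ).submatrix Fin.succ i.succ.succAbove).det = 0 := by
      refine Finset.sum_eq_zero fun i _ => ?_
      rw [a0j, mul_zero, zero_mul]
    rw [h4, add_zero, Fin.val_zero, pow_zero, one_mul, one_mul, Fin.succAbove_zero,
      ← Matrix.det_transpose (Matrix.of fun i j => δ i (u j))]
    congr 1
    ext i j
    rw [Matrix.transpose_apply, Matrix.of_apply, Matrix.submatrix_apply]
    exact (ajj _ _).symm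

end Pool.Agent.H404.ZL
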